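import Pool.Agent.W422.PI.Stm

set_option autoImplicit false

namespace Pool.Agent.W405.PI

open Pool.Agent.W422.PI

theorem main : SRZ := by
  intro n hn a b hab
  haveI : NeZero n := ⟨hn.ne'⟩
  set d : ℕ := Nat.gcd b.val n with hd
  have hdn : d ∣ n := Nat.gcd_dvd_right _ _
  have hdb : d ∣ b.val := Nat.gcd_dvd_left _ _
  set φ : ZMod n →+* ZMod d := ZMod.castHom hdn (ZMod d) with hφ
  have hφn : ∀ k : ℕ, φ (k : ZMod n) = (k : ZMod d) := fun k => map_natCast φ k
  have hφb : φ b = 0 := by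
    rw [← ZMod.natCast_zmod_val b, hφn, ZMod.natCast_eq_zero_iff]
    exact hdb
  have hφa : IsUnit (φ a) := by
    have h1 : IsCoprime (φ a) (φ b) := hab.map φ
    rw [hφb] at h1
    exact isCoprime_zero_right.mp h1
  obtain ⟨u, hu⟩ := ZMod.unitsMap_surjective hdn hφa.unit
  have hu' : φ (u : ZMod n) = φ a := by
    have h1 := congrArg Units.val hu
    rw [IsUnit.unit_spec] at h1
    exact h1
  have hker : φ ((u : ZMod n) - a) = 0 := by rw [map_sub, hu', sub_self]
  set x : ZMod n := (u : ZMod n) - a with hx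
  have hdx : d ∣ x.val := by
    rw [← ZMod.natCast_eq_zero_iff, ← hφn, ZMod.natCast_zmod_val]
    exact hker
  obtain ⟨k, hk⟩ := hdx
  have hdd : (d : ZMod n) = b * (Nat.gcdA b.val n : ZMod n) := by
    have h1 : ((d : ℤ) : ZMod n) =
        (((b.val : ℤ) * Nat.gcdA b.val n + (n : ℤ) * Nat.gcdB b.val n : ℤ) : ZMod n) := by
      rw [hd, Nat.gcd_eq_gcd_ab]
    push_cast at h1
    rw [ZMod.natCast_zmod_val, ZMod.natCast_self, zero_mul, add_zero] at h1
    exact h1
  refine ⟨(Nat.gcdA b.val n : ZMod n) * k, ?_⟩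
  have h2 : a + (Nat.gcdA b.val n : ZMod n) * k * b = u := by
    have h3 : x = (d : ZMod n) * k := by
      rw [← ZMod.natCast_zmod_val x, hk, Nat.cast_mul]
    rw [hdd] at h3
    have h4 : (u : ZMod n) = a + x := by rw [hx]; ring
    rw [h4, h3]
    ring
  rw [h2]
  exact u.isUnit

end Pool.Agent.W405.PI
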